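import Pool.Agent.H30.GMC.StT

/-!
GMC modules PULA and PULB: pull-back of rational functions.
-/

open AlgebraicGeometry CategoryTheory FCB MvPolynomial

namespace GMC

namespace PULA

variable {X Y : Scheme.{0}} [IsIntegral X] [IsIntegral Y]

lemma inj (x : X) : Function.Injective (algebraMap (X.presheaf.stalk x) X.functionField) :=
  IsFractionRing.injective (X.presheaf.stalk x) X.functionField

lemma spec (y : Y) : genericPoint Y ⤳ y := (genericPoint_spec Y).specializes trivial

/-- `algebraMap` of the specialisation. -/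
lemma alg_spec {x x' : X} (h : x ⤳ x') (s : X.presheaf.stalk x') :
    algebraMap (X.presheaf.stalk x) X.functionField ((X.presheaf.stalkSpecializes h).hom s) =
      algebraMap (X.presheaf.stalk x') X.functionField s := by
  have e : X.presheaf.stalkSpecializes h ≫
      X.presheaf.stalkSpecializes ((genericPoint_spec X).specializes trivial) =
      X.presheaf.stalkSpecializes ((genericPoint_spec X).specializes trivial) :=
    X.presheaf.stalkSpecializes_comp _ _
  exact DFunLike.congr_fun (CommRingCat.hom_ext_iff.mp e) s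

end PULA

open PULA

theorem pula_thm : S_PULA := by
  intro X Y _ _ _ _ g
  refine ⟨?_, ?_, ?_, ?_, ?_, ?_, ?_⟩
  · rintro a b b' ⟨s, hs, hb⟩ ⟨s', hs', hb'⟩
    have : s = s' := inj _ (hs.trans hs'.symm)
    rw [← hb, ← hb', this]
  · rintro a b a' b' ⟨s, hs, hb⟩ ⟨s', hs', hb'⟩
    refine ⟨⟨s * s', ?_, ?_⟩, ⟨s + s', ?_, ?_⟩⟩
    · rw [map_mul, hs, hs']
    · rw [map_mul, hb, hb']
    · rw [map_add, hs, hs']
    · rw [map_add, hb, hb']
  · exact ⟨1, map_one _, map_one _⟩
  · rintro a b ⟨s, hs, hb⟩
    constructor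
    · rintro ⟨s', hu, hs'⟩ h0
      have : s = s' := inj _ (hs.trans hs'.symm)
      subst this
      have := hu.map (g.stalkMap (genericPoint Y)).hom
      rw [hb, h0] at this
      exact not_isUnit_zero this
    · intro h0
      refine ⟨s, ?_, hs⟩
      have : IsUnit ((g.stalkMap (genericPoint Y)).hom s) := by
        rw [hb]; exact isUnit_iff_ne_zero.mpr h0
      exact (isUnit_map_iff (g.stalkMap (genericPoint Y)).hom s).mp this
  · rintro a b ⟨s, hs, hb⟩ h0
    have hu : IsUnit s := by
      have : IsUnit ((g.stalkMap (genericPoint Y)).hom s) := by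
        rw [hb]; exact isUnit_iff_ne_zero.mpr h0
      exact (isUnit_map_iff (g.stalkMap (genericPoint Y)).hom s).mp this
    obtain ⟨u, rfl⟩ := hu
    refine ⟨(u⁻¹ : (X.presheaf.stalk (g (genericPoint Y)))ˣ), ?_, ?_⟩
    · rw [← hs]
      refine eq_inv_of_mul_eq_one_left ?_
      rw [← map_mul, Units.inv_mul, map_one]
    · rw [← hb]
      refine eq_inv_of_mul_eq_one_left ?_
      rw [← map_mul, Units.inv_mul, map_one]
  · rintro y a ⟨s, hs⟩
    have hsp : g (genericPoint Y) ⤳ g y := g.base.hom.map_specializes (spec y)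
    refine ⟨algebraMap (Y.presheaf.stalk y) Y.functionField ((g.stalkMap y).hom s), ?_,
      ⟨_, rfl⟩, ?_⟩
    · refine ⟨(X.presheaf.stalkSpecializes hsp).hom s, ?_, ?_⟩
      · rw [alg_spec, hs]
      · exact Scheme.Hom.stalkSpecializes_stalkMap_apply g (genericPoint Y) y (spec y) s
    · constructor
      · rintro ⟨t, ht, h⟩
        have : t = (g.stalkMap y).hom s := inj _ h
        rw [this] at ht
        exact ⟨s, (isUnit_map_iff (g.stalkMap y).hom s).mp ht, hs⟩
      · rintro ⟨t, ht, h⟩
        have : t = s := inj _ (h.trans hs.symm)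
        subst this
        exact ⟨_, ht.map _, rfl⟩
  · intro s z
    refine ⟨X.presheaf.germ ⊤ (g (genericPoint Y)) trivial (secHom s ⊤ z), ?_, ?_⟩
    · have e : X.presheaf.germ ⊤ (g (genericPoint Y)) trivial ≫
          X.presheaf.stalkSpecializes ((genericPoint_spec X).specializes trivial) =
          X.presheaf.germ ⊤ (genericPoint X) trivial :=
        X.presheaf.germ_stalkSpecializes _ _
      exact DFunLike.congr_fun (CommRingCat.hom_ext_iff.mp e) (secHom s ⊤ z)
    · have h1 := Scheme.Hom.germ_stalkMap_apply g ⊤ (genericPoint Y) trivial (secHom s ⊤ z)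
      refine h1.trans ?_
      have h2 : (g.app ⊤).hom (secHom s ⊤ z) = secHom (g ≫ s) ⊤ z := by
        have e1 : X.presheaf.map (homOfLE (le_top : (⊤ : X.Opens) ≤ ⊤)).op = 𝟙 _ :=
          X.presheaf.map_id _
        have e2 : Y.presheaf.map (homOfLE (le_top : (⊤ : Y.Opens) ≤ ⊤)).op = 𝟙 _ :=
          Y.presheaf.map_id _
        simp only [secHom, e1, e2]
        rfl
      have h3 : ffHom (g ≫ s) z = Y.presheaf.germ ⊤ (genericPoint Y) trivial
          (secHom (g ≫ s) ⊤ z) := rfl
      rw [h3, ← h2]
      rfl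

end GMC
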