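import Pool.Agent.H19.GMC.PULA

/-!
GMC module PULB: pull-backs and compositions.
-/

open AlgebraicGeometry CategoryTheory FCB MvPolynomial

namespace GMC

open PULA

theorem pulb_thm : S_PULB := by
  intro X Y Z _ _ _ _ _ _ g k a b c hab
  obtain ⟨s, hs, hb⟩ := hab
  constructor
  · rintro ⟨t, ht, hc⟩
    refine ⟨(g.stalkMap (k (genericPoint Z))).hom t, ?_, ?_⟩
    · have hsp : genericPoint Y ⤳ k (genericPoint Z) := spec _
      have h1 := Scheme.Hom.stalkSpecializes_stalkMap_apply g _ _ hsp t
      have h2 : algebraMap (Y.presheaf.stalk (k (genericPoint Z))) Y.functionField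
          ((g.stalkMap (k (genericPoint Z))).hom t) =
          (Y.presheaf.stalkSpecializes hsp).hom ((g.stalkMap (k (genericPoint Z))).hom t) := rfl
      rw [h2]
      refine h1.symm.trans ?_
      have h3 : (X.presheaf.stalkSpecializes (g.base.hom.map_specializes hsp)).hom t = s := by
        apply inj
        refine (alg_spec (g.base.hom.map_specializes hsp) t).trans ?_
        exact ht.trans hs.symm
      have h4 := congrArg (fun q => (g.stalkMap (genericPoint Y)).hom q) h3
      exact h4.trans hb
    · have h1 := DFunLike.congr_fun (CommRingCat.hom_ext_iff.mp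
        (Scheme.Hom.stalkMap_comp k g (genericPoint Z))) t
      exact h1.symm.trans hc
  · rintro hk ⟨u, hu, hc⟩
    have hsp : k (genericPoint Z) ⤳ genericPoint Y := specializes_of_eq hk
    refine ⟨(X.presheaf.stalkSpecializes (g.base.hom.map_specializes hsp)).hom s, ?_, ?_⟩
    · rw [← hs]
      exact alg_spec _ _
    · have h1 := DFunLike.congr_fun (CommRingCat.hom_ext_iff.mp
        (Scheme.Hom.stalkMap_comp k g (genericPoint Z)))
        ((X.presheaf.stalkSpecializes (g.base.hom.map_specializes hsp)).hom s)
      refine h1.trans ?_
      have h2 := Scheme.Hom.stalkSpecializes_stalkMap_apply g _ _ hsp s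
      have h3 : (Y.presheaf.stalkSpecializes hsp).hom ((g.stalkMap (genericPoint Y)).hom s) =
          u := by
        apply inj
        rw [hu]
        refine (alg_spec hsp _).trans ?_
        rw [hb]
        have e : Y.presheaf.stalkSpecializes ((genericPoint_spec Y).specializes trivial :
            genericPoint Y ⤳ genericPoint Y) = 𝟙 _ :=
          Y.presheaf.stalkSpecializes_refl _
        exact DFunLike.congr_fun (CommRingCat.hom_ext_iff.mp e) b
      have h4 : (g.stalkMap (k (genericPoint Z))).hom
          ((X.presheaf.stalkSpecializes (g.base.hom.map_specializes hsp)).hom s) = u :=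
        h2.trans h3
      have h5 := congrArg (fun q => (k.stalkMap (genericPoint Z)).hom q) h4
      exact h5.trans hc

end GMC
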